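import Pool.Agent.Q226.DS.Defs
import Pool.Agent.Q226.DS.Alg

set_option autoImplicit false

/-!
# Competitive algorithms for the delayed k-server problem

The definitions (`OnlineAlg`, `OnlineAlg.cost`, `IsSchedule`, `opt`, `OnlineAlg.Competitive`) are in
`Pool/Agent/Q226/DS/Defs.lean`.

The algorithm: at step `t` the two points `r^t` and `r^(t-1)` are fed alternately as requests to the
work function algorithm for the ordinary `k`-server problem until its configuration covers both
points; then the servers move to that configuration, which is possible without moving the frozen
server and without paying more. Every step in which the two points are not both covered costs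
`d(r^(t-1), r^t)`, so this terminates because the work function algorithm is competitive. The
configurations of a schedule for the delayed problem cover both points at time `t`, hence serve all
the fed requests. The bound `2k - 1` for the work function algorithm (Koutsoupias and
Papadimitriou) is proved in `Pool/Agent/Q226/DS/Work.lean`.
-/

namespace Pool.Agent.Results.MP_ff2559_lc.DelayedWFA

open Pool.Agent.Q226.DS

universe u

/-- **For every `k ≥ 2` and every metric space there is a `(2k - 1)`-competitive deterministic online
algorithm for the delayed `k`-server problem.** -/
theorem result : ∀ k : ℕ, 2 ≤ k → ∀ (M : Type u) [MetricSpace M] (x0 : Fin k → M) (f0 : Fin k),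
    ∃ A : OnlineAlg k M x0 f0, A.Competitive (2 * k - 1) :=
  fun _ hk _ _ x0 f0 => exists_alg hk x0 f0

end Pool.Agent.Results.MP_ff2559_lc.DelayedWFA
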